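import Pool.Agent.Run7.h153.EE.Iface

/-! # Project EE (helper153), piece B (helper819): continuity of the roots of a cubic polynomial -/

set_option autoImplicit false

open Polynomial

namespace Run7.h819.EE

/-- the cubic polynomial `4 X³ - a X - b` splits -/
lemma roots (a b : ℂ) : ∃ r : Fin 3 → ℂ, ∀ x : ℂ,
    4 * x ^ 3 - a * x - b = 4 * ((x - r 0) * (x - r 1) * (x - r 2)) := by
  have hdeg : 0 < (X ^ 3 - C (a / 4) * X - C (b / 4) : ℂ[X]).degree := by
    have h : (X ^ 3 - C (a / 4) * X - C (b / 4) : ℂ[X]).degree = 3 := by compute_degree!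
    rw [h]
    norm_num
  obtain ⟨u, hu⟩ := Complex.exists_root hdeg
  have hu' : u ^ 3 - a / 4 * u - b / 4 = 0 := by
    have := hu
    simpa [Polynomial.IsRoot] using this
  obtain ⟨s, hs⟩ := IsAlgClosed.exists_pow_nat_eq (u ^ 2 - 4 * (u ^ 2 - a / 4)) (n := 2) (by norm_num)
  refine ⟨![u, (-u + s) / 2, (-u - s) / 2], fun x => ?_⟩
  simp only [Matrix.cons_val_zero, Matrix.cons_val_one, Matrix.cons_val]
  have hb : b = 4 * (u ^ 3 - a / 4 * u) := by linear_combination (-4 : ℂ) * hu'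
  rw [hb]
  linear_combination (x - u) * hs

theorem t_B : Run7.h153.EE.S_B := by
  intro g₂ g₃ e he hfac ε hε
  -- the smallest distance
  obtain ⟨m, hm0, hm⟩ : ∃ m : ℝ, 0 < m ∧ ∀ i j, i ≠ j → 2 * m ≤ ‖e i - e j‖ := by
    have h01 : 0 < ‖e 0 - e 1‖ := norm_pos_iff.2 (sub_ne_zero.2 (he.ne (by decide)))
    have h02 : 0 < ‖e 0 - e 2‖ := norm_pos_iff.2 (sub_ne_zero.2 (he.ne (by decide)))
    have h12 : 0 < ‖e 1 - e 2‖ := norm_pos_iff.2 (sub_ne_zero.2 (he.ne (by decide)))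
    refine ⟨min (‖e 0 - e 1‖) (min (‖e 0 - e 2‖) (‖e 1 - e 2‖)) / 2, by positivity, ?_⟩
    have a1 := min_le_left (‖e 0 - e 1‖) (min (‖e 0 - e 2‖) (‖e 1 - e 2‖))
    have a2 := (min_le_right (‖e 0 - e 1‖) (min (‖e 0 - e 2‖) (‖e 1 - e 2‖))).trans (min_le_left _ _)
    have a3 := (min_le_right (‖e 0 - e 1‖) (min (‖e 0 - e 2‖) (‖e 1 - e 2‖))).trans (min_le_right _ _)
    intro i j hij
    fin_cases i <;> fin_cases j
    · exact absurd rfl hij
    · show _ ≤ ‖e 0 - e 1‖; linarith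
    · show _ ≤ ‖e 0 - e 2‖; linarith
    · show _ ≤ ‖e 1 - e 0‖; rw [norm_sub_rev (e 1) (e 0)]; linarith
    · exact absurd rfl hij
    · show _ ≤ ‖e 1 - e 2‖; linarith
    · show _ ≤ ‖e 2 - e 0‖; rw [norm_sub_rev (e 2) (e 0)]; linarith
    · show _ ≤ ‖e 2 - e 1‖; rw [norm_sub_rev (e 2) (e 1)]; linarith
    · exact absurd rfl hij
  obtain ⟨η, hη⟩ : ∃ η : ℝ, η = min ε m := ⟨_, rfl⟩
  have hη0 : 0 < η := by rw [hη]; positivity
  have hηε : η ≤ ε := by rw [hη]; exact min_le_left _ _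
  have hηm : η ≤ m := by rw [hη]; exact min_le_right _ _
  obtain ⟨M, hM⟩ : ∃ M : ℝ, M = ‖e 0‖ + ‖e 1‖ + ‖e 2‖ := ⟨_, rfl⟩
  have hM0 : 0 ≤ M := by rw [hM]; positivity
  have heM : ∀ i, ‖e i‖ ≤ M := by
    intro i
    rw [hM]
    have := norm_nonneg (e 0)
    have := norm_nonneg (e 1)
    have := norm_nonneg (e 2)
    fin_cases i
    · show ‖e 0‖ ≤ _; linarith
    · show ‖e 1‖ ≤ _; linarith
    · show ‖e 2‖ ≤ _; linarith
  refine ⟨η ^ 3 / (M + 1), by positivity, fun g₂' g₃' h2 h3 => ?_⟩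
  obtain ⟨r, hr⟩ := roots g₂' g₃'
  have key : ∀ i, ∃ j, ‖r j - e i‖ < η := by
    intro i
    by_contra hcon
    push Not at hcon
    have e0 : 4 * (e i) ^ 3 - g₂ * e i - g₃ = 0 := by
      rw [hfac]
      fin_cases i
      · show (4 : ℂ) * ((e 0 - e 0) * (e 0 - e 1) * (e 0 - e 2)) = 0; ring
      · show (4 : ℂ) * ((e 1 - e 0) * (e 1 - e 1) * (e 1 - e 2)) = 0; ring
      · show (4 : ℂ) * ((e 2 - e 0) * (e 2 - e 1) * (e 2 - e 2)) = 0; ring
    have e1 : (g₂' - g₂) * e i + (g₃' - g₃) = 4 * ((r 0 - e i) * (r 1 - e i) * (r 2 - e i)) := by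
      have := hr (e i)
      linear_combination e0 - this
    have n1 : ‖(g₂' - g₂) * e i + (g₃' - g₃)‖ ≤ η ^ 3 := by
      refine (norm_add_le _ _).trans ?_
      rw [norm_mul]
      have h4 : ‖g₂' - g₂‖ * ‖e i‖ ≤ η ^ 3 / (M + 1) * M :=
        mul_le_mul h2.le (heM i) (norm_nonneg _) (by positivity)
      have h5 : η ^ 3 / (M + 1) * M + η ^ 3 / (M + 1) = η ^ 3 := by field_simp
      linarith
    rw [e1, norm_mul, norm_mul, norm_mul] at n1
    have h4 : ‖(4 : ℂ)‖ = 4 := by norm_num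
    rw [h4] at n1
    have h5 : η ^ 3 ≤ ‖r 0 - e i‖ * ‖r 1 - e i‖ * ‖r 2 - e i‖ := by
      calc η ^ 3 = η * η * η := by ring
        _ ≤ ‖r 0 - e i‖ * ‖r 1 - e i‖ * ‖r 2 - e i‖ := by
            gcongr
            · exact hcon 0
            · exact hcon 1
            · exact hcon 2
    have h6 : 0 < η ^ 3 := by positivity
    linarith
  choose j hj using key
  have hinj : Function.Injective j := by
    intro i i' hii
    by_contra hne
    have h4 := hm i i' hne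
    have h5 := hj i
    have h6 := hj i'
    rw [← hii] at h6
    have h7 : ‖e i - e i'‖ ≤ ‖r (j i) - e i‖ + ‖r (j i) - e i'‖ := by
      have : e i - e i' = -(r (j i) - e i) + (r (j i) - e i') := by ring
      rw [this]
      refine (norm_add_le _ _).trans ?_
      rw [norm_neg]
    linarith
  have hbij := Finite.injective_iff_bijective.1 hinj
  refine ⟨fun i => r (j i), fun x => ?_, fun i => (hj i).trans_le hηε⟩
  rw [hr]
  have h4 := (Equiv.ofBijective j hbij).prod_comp (fun i => x - r i)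
  simp only [Equiv.ofBijective_apply, Fin.prod_univ_three] at h4
  rw [h4]

end Run7.h819.EE
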